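import Pool.Agent.R626.BlumB
import Mathlib.Order.Filter.AtTopBot.Basic
import Mathlib.Computability.Reduce

/-!
# A conform Blum measure with a complexity class that is not recursively enumerable

The numbering contains cheap indices `⟨0, k⟩` for the constant functions, indices `⟨1, k⟩` of cost
`1` for the functions of finite support, and the usual indices with cost at least `2`. The cost of
the `k`-th constant, `k = ⟨i, m⟩`, is `0` or `1`; it is `1` on a set which meets the set decided by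
the program `i` infinitely often if the program `m` is total, and which is finite otherwise. So the
classes below a bound which is infinitely often `0` consist of the constants `⟨i, m⟩` with a
`Π₂`-complete exceptional condition, and all nonempty classes have index sets of the same one-one
degree.
-/

set_option autoImplicit false

namespace Pool.Agent.Results.MP_9ab454_lc.ConformNotRE

open Filter

/-- An acceptable Gödel numbering of the unary partial recursive functions: it is partial recursive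
in both arguments, and every binary partial recursive function reduces to it by a total recursive
translation of indices. -/
structure IsGoedel (φ : ℕ → ℕ →. ℕ) : Prop where
  univ : Partrec₂ φ
  smn : ∀ ψ : ℕ → ℕ →. ℕ, Partrec₂ ψ → ∃ s : ℕ → ℕ, Computable s ∧ ∀ i, φ (s i) = ψ i

/-- A Blum measure. -/
structure IsBlum (φ Φ : ℕ → ℕ →. ℕ) : Prop where
  goedel : IsGoedel φ
  partrec : ∀ i, Partrec (Φ i)
  dom : ∀ i, (Φ i).Dom = (φ i).Dom
  graph : ComputablePred fun p : ℕ × ℕ × ℕ => p.2.2 ∈ Φ p.1 p.2.1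

/-- `φ i` is the total function `f`. -/
def Computes (φ : ℕ → ℕ →. ℕ) (i : ℕ) (f : ℕ → ℕ) : Prop := ∀ x, f x ∈ φ i x

/-- The complexity class of the bound `t`. -/
def Cls (φ Φ : ℕ → ℕ →. ℕ) (t : ℕ → ℕ) : Set (ℕ → ℕ) :=
  {f | ∃ i, Computes φ i f ∧ ∀ᶠ x in atTop, ∃ y ∈ Φ i x, y ≤ t x}

/-- The index set of the complexity class of the bound `t`. -/
def Idx (φ Φ : ℕ → ℕ →. ℕ) (t : ℕ → ℕ) : Set ℕ :=
  {i | ∃ f ∈ Cls φ Φ t, Computes φ i f}

/-- The measure is conform: the index sets of any two nonempty complexity classes are one-one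
equivalent. -/
def Conform (φ Φ : ℕ → ℕ →. ℕ) : Prop :=
  ∀ t₁ t₂ : ℕ → ℕ, Computable t₁ → Computable t₂ →
    (Cls φ Φ t₁).Nonempty → (Cls φ Φ t₂).Nonempty →
    OneOneEquiv (fun i => i ∈ Idx φ Φ t₁) (fun i => i ∈ Idx φ Φ t₂)

/-- The class `C` of total functions is recursively enumerable. -/
def IsRE (φ : ℕ → ℕ →. ℕ) (C : Set (ℕ → ℕ)) : Prop :=
  C = ∅ ∨ ∃ g : ℕ → ℕ, Computable g ∧ C = {f | ∃ n, Computes φ (g n) f} ∧
    ∀ n, ∃ f, Computes φ (g n) f

/-! ### Proof -/

open Pool.Agent.R626.Blum Nat.Partrec Encodable Denumerable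

/-- parameter theorem for codes -/
theorem smnCode (ψ : ℕ → ℕ →. ℕ) (h : Partrec₂ ψ) :
    ∃ a : ℕ → ℕ, Computable a ∧ Function.Injective a ∧ ∀ i x, (cd (a i)).eval x = ψ i x := by
  have h1 : Partrec fun z : ℕ => ψ z.unpair.1 z.unpair.2 :=
    Partrec.comp h Primrec.unpair.to_comp
  obtain ⟨c, hc⟩ := Code.exists_code.1 (Partrec.nat_iff.1 h1)
  refine ⟨fun i => encode (Code.curry c i), ?_, ?_, ?_⟩
  · exact (Primrec.encode.comp (Code.primrec₂_curry.comp (Primrec.const c) Primrec.id)).to_comp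
  · intro i j hij
    exact (Code.curry_inj (Encodable.encode_injective hij)).2
  · intro i x
    simp only [cd, ofNat_encode, Code.eval_curry]
    rw [hc]
    simp

theorem smnPhi (ψ : ℕ → ℕ →. ℕ) (h : Partrec₂ ψ) :
    ∃ s : ℕ → ℕ, Computable s ∧ Function.Injective s ∧ ∀ i x, phi (s i) x = ψ i x := by
  obtain ⟨a, ha1, ha2, ha3⟩ := smnCode ψ h
  refine ⟨fun i => Nat.pair 2 (a i), ?_, ?_, ?_⟩
  · exact (Primrec₂.natPair.to_comp.comp (Computable.const 2) ha1)
  · intro i j hij
    exact ha2 (Nat.pair_eq_pair.1 hij).2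
  · intro i x
    unfold phi
    simp only [Nat.unpair_pair]
    exact ha3 i x

theorem isBlum : IsBlum phi Phi where
  goedel :=
    { univ := phi_partrec
      smn := fun ψ h => by
        obtain ⟨s, h1, -, h3⟩ := smnPhi ψ h
        exact ⟨s, h1, fun i => funext (h3 i)⟩ }
  partrec := Phi_partrec
  dom := fun i => by
    ext x
    exact Phi_dom i x
  graph := by
    obtain ⟨h1, h2⟩ := Phi_graph
    exact ⟨h1, h2.to_comp⟩

theorem mem_Cls {t f : ℕ → ℕ} :
    f ∈ Cls phi Phi t ↔ ∃ i, Computes phi i f ∧ ∃ b, ∀ x ≥ b, le i x (t x) := by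
  unfold Cls le
  simp only [Set.mem_ofPred_eq, eventually_atTop]

theorem Computes.unique {i : ℕ} {f g : ℕ → ℕ} (h1 : Computes phi i f) (h2 : Computes phi i g) :
    f = g := funext fun x => Part.mem_unique (h1 x) (h2 x)

/-- the const index -/
theorem computes_const (k : ℕ) : Computes phi (Nat.pair 0 k) (fun _ => k) := by
  intro x
  unfold phi
  simp

theorem le_const {k x y : ℕ} : le (Nat.pair 0 k) x y ↔ (1 ≤ y ∨ ¬ bad k.unpair.1 k.unpair.2 x) := by
  rw [le_iff]; simp

/-- membership of the constants in classes with a bound vanishing infinitely often -/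
theorem const_mem {t : ℕ → ℕ} (ht : ∀ b, ∃ x, b ≤ x ∧ t x = 0) (k : ℕ) :
    (fun _ => k) ∈ Cls phi Phi t ↔ ∃ b, ∀ x ≥ b, t x = 0 → ¬ bad k.unpair.1 k.unpair.2 x := by
  rw [mem_Cls]
  constructor
  · rintro ⟨n, hn, b, hb⟩
    have h0 : n.unpair.1 = 0 := by
      obtain ⟨x, hx1, hx2⟩ := ht b
      have := hb x hx1
      rw [hx2, le_iff] at this
      omega
    have hk : n.unpair.2 = k := by
      have := hn 0
      unfold phi at this
      rw [if_pos h0] at this
      exact (Part.mem_some_iff.1 this).symm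
    refine ⟨b, fun x hx hx0 => ?_⟩
    have := hb x hx
    rw [hx0, le_iff, h0, hk] at this
    simpa using this
  · rintro ⟨b, hb⟩
    refine ⟨Nat.pair 0 k, computes_const k, b, fun x hx => ?_⟩
    rw [le_const]
    by_cases h : t x = 0
    · exact Or.inr (hb x hx h)
    · exact Or.inl (by omega)

/-- a program deciding the zero set of the bound -/
theorem exists_decides {t : ℕ → ℕ} (ht : Computable t) : ∃ i, Decides i (fun z => t z = 0) := by
  classical
  have h1 : Computable fun z => if t z = 0 then 1 else 0 := by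
    have h2 : Primrec fun v : ℕ => if v = 0 then 1 else 0 :=
      Primrec.ite (Primrec.eq.comp Primrec.id (Primrec.const 0)) (Primrec.const 1)
        (Primrec.const 0)
    exact h2.to_comp.comp ht
  obtain ⟨c, hc⟩ := Code.exists_code.1 (Partrec.nat_iff.1 h1.partrec)
  refine ⟨encode c, fun z => ?_⟩
  simp only [cd, ofNat_encode, hc]
  by_cases h : t z = 0 <;> simp [h]

theorem const_mem_iff {t : ℕ → ℕ} (ht : ∀ b, ∃ x, b ≤ x ∧ t x = 0) {i : ℕ}
    (hi : Decides i (fun z => t z = 0)) (m : ℕ) :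
    (fun _ => Nat.pair i m) ∈ Cls phi Phi t ↔ ¬ Tot m := by
  rw [const_mem ht]
  simp only [Nat.unpair_pair]
  constructor
  · rintro ⟨b, hb⟩ hm
    obtain ⟨x, hx1, hx2, hx3⟩ := bad_of_tot hi ht hm b
    exact hb x hx1 hx2 hx3
  · intro hm
    obtain ⟨b, hb⟩ := not_bad_of_not_tot hi ht hm
    exact ⟨b, fun x hx _ => hb x hx⟩

/-! ### The upper bound -/

/-- violation check -/
def chk (e w x s T : ℕ) : Prop :=
  (w.unpair.2.unpair.1 ≤ x ∧ ¬ le w.unpair.1 x T) ∨
  (x < w.unpair.2.unpair.1 ∧ ¬ le w.unpair.1 x w.unpair.2.unpair.2) ∨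
  ((phis s w.unpair.1 x).isSome = true ∧ (phis s e x).isSome = true ∧
    ¬ phis s w.unpair.1 x = phis s e x)

theorem chk_prim : PrimrecPred fun p : (ℕ × ℕ) × (ℕ × ℕ) × ℕ =>
    chk p.1.1 p.1.2 p.2.1.1 p.2.1.2 p.2.2 := by
  have he : Primrec fun p : (ℕ × ℕ) × (ℕ × ℕ) × ℕ => p.1.1 := Primrec.fst.comp Primrec.fst
  have hw : Primrec fun p : (ℕ × ℕ) × (ℕ × ℕ) × ℕ => p.1.2 := Primrec.snd.comp Primrec.fst
  have hx : Primrec fun p : (ℕ × ℕ) × (ℕ × ℕ) × ℕ => p.2.1.1 :=
    Primrec.fst.comp (Primrec.fst.comp Primrec.snd)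
  have hs : Primrec fun p : (ℕ × ℕ) × (ℕ × ℕ) × ℕ => p.2.1.2 :=
    Primrec.snd.comp (Primrec.fst.comp Primrec.snd)
  have hT : Primrec fun p : (ℕ × ℕ) × (ℕ × ℕ) × ℕ => p.2.2 := Primrec.snd.comp Primrec.snd
  have hn := u1_prim hw
  have hb := u1_prim (u2_prim hw)
  have hc := u2_prim (u2_prim hw)
  have k1 : PrimrecPred fun p : (ℕ × ℕ) × (ℕ × ℕ) × ℕ =>
      (p.1.2.unpair.2.unpair.1 ≤ p.2.1.1 ∧ ¬ le p.1.2.unpair.1 p.2.1.1 p.2.2) :=
    (Primrec.nat_le.comp hb hx).and (le_prim hn hx hT).not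
  have k2 : PrimrecPred fun p : (ℕ × ℕ) × (ℕ × ℕ) × ℕ =>
      (p.2.1.1 < p.1.2.unpair.2.unpair.1 ∧ ¬ le p.1.2.unpair.1 p.2.1.1 p.1.2.unpair.2.unpair.2) :=
    (Primrec.nat_lt.comp hx hb).and (le_prim hn hx hc).not
  have k3 : PrimrecPred fun p : (ℕ × ℕ) × (ℕ × ℕ) × ℕ =>
      ((phis p.2.1.2 p.1.2.unpair.1 p.2.1.1).isSome = true ∧
        (phis p.2.1.2 p.1.1 p.2.1.1).isSome = true ∧
        ¬ phis p.2.1.2 p.1.2.unpair.1 p.2.1.1 = phis p.2.1.2 p.1.1 p.2.1.1) :=
    (Primrec.eq.comp (Primrec.option_isSome.comp (phis_prim hs hn hx)) (Primrec.const true)).and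
      ((Primrec.eq.comp (Primrec.option_isSome.comp (phis_prim hs he hx))
        (Primrec.const true)).and
      (Primrec.eq.comp (phis_prim hs hn hx) (phis_prim hs he hx)).not)
  exact k1.or (k2.or k3)

/-- uniformly bounded cost on finitely many inputs -/
theorem exists_bound {n : ℕ} {f : ℕ → ℕ} (h : Computes phi n f) (b : ℕ) :
    ∃ c, ∀ x < b, le n x c := by
  induction b with
  | zero => exact ⟨0, fun x hx => absurd hx (by omega)⟩
  | succ b ih =>
    obtain ⟨c, hc⟩ := ih
    have h1 : (Phi n b).Dom := (Phi_dom n b).2 (Part.dom_iff_mem.2 ⟨_, h b⟩)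
    obtain ⟨v, hv⟩ := Part.dom_iff_mem.1 h1
    refine ⟨max c v, fun x hx => ?_⟩
    rcases Nat.lt_or_ge x b with h2 | h2
    · obtain ⟨u, hu1, hu2⟩ := hc x h2
      exact ⟨u, hu1, hu2.trans (le_max_left _ _)⟩
    · obtain rfl : x = b := by omega
      exact ⟨v, hv, le_max_right _ _⟩

theorem upper {t : ℕ → ℕ} (ht : Computable t) :
    ∃ a : ℕ → ℕ, Computable a ∧
      ∀ e f, Computes phi e f → (f ∈ Cls phi Phi t ↔ ¬ Tot (a e)) := by
  classical
  let R : (ℕ × ℕ) → ℕ → Bool := fun p z =>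
    decide (chk p.1 p.2 z.unpair.1 z.unpair.2 (t z.unpair.1))
  have hR : Computable₂ R := by
    have h1 : Computable fun q : (ℕ × ℕ) × ℕ =>
        ((q.1, ((q.2.unpair.1, q.2.unpair.2), t q.2.unpair.1)) : (ℕ × ℕ) × (ℕ × ℕ) × ℕ) := by
      refine Computable.pair Computable.fst (Computable.pair ?_ ?_)
      · exact (Primrec.unpair.comp Primrec.snd).to_comp
      · exact ht.comp (u1_prim Primrec.snd).to_comp
    exact (chk_prim.decide.to_comp.comp h1).of_eq fun q => by simp [R]
  have hW : Partrec fun p : ℕ × ℕ => Nat.rfind fun z => Part.some (R p z) :=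
    Partrec.rfind (p := fun p z => Part.some (R p z)) hR.partrec₂
  let W : ℕ → ℕ →. ℕ := fun e w => Nat.rfind fun z => Part.some (R (e, w) z)
  have hW2 : Partrec₂ W := hW
  obtain ⟨a, ha1, -, ha3⟩ := smnCode W hW2
  refine ⟨a, ha1, fun e f hf => ?_⟩
  have hdom : ∀ w, ((cd (a e)).eval w).Dom ↔
      ∃ z : ℕ, chk e w z.unpair.1 z.unpair.2 (t z.unpair.1) := by
    intro w
    rw [ha3, Part.dom_iff_mem]
    constructor
    · rintro ⟨z, hz⟩
      refine ⟨z, ?_⟩
      have := (mem_rf.1 hz).1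
      simpa [R] using this
    · rintro hz
      refine ⟨Nat.find hz, mem_rf.2 ⟨?_, fun m hm => ?_⟩⟩
      · simpa [R] using Nat.find_spec hz
      · simpa [R] using Nat.find_min hz hm
  have hdom' : ∀ w, ((cd (a e)).eval w).Dom ↔ ∃ x s : ℕ, chk e w x s (t x) := by
    intro w
    rw [hdom]
    constructor
    · rintro ⟨z, hz⟩; exact ⟨_, _, hz⟩
    · rintro ⟨x, s, hz⟩; exact ⟨Nat.pair x s, by simpa using hz⟩
  rw [mem_Cls]
  constructor
  · rintro ⟨n, hn, b, hb⟩ hT
    obtain ⟨c, hc⟩ := exists_bound hn b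
    obtain ⟨x, s, h⟩ := (hdom' _).1 (hT (Nat.pair n (Nat.pair b c)))
    unfold chk at h
    simp only [Nat.unpair_pair] at h
    rcases h with ⟨h1, h2⟩ | ⟨h1, h2⟩ | ⟨h1, h2, h3⟩
    · exact h2 (hb x h1)
    · exact h2 (hc x h1)
    · obtain ⟨u, hu⟩ := Option.isSome_iff_exists.1 h1
      obtain ⟨v, hv⟩ := Option.isSome_iff_exists.1 h2
      have e1 : u = f x := Part.mem_unique (mem_phi.2 ⟨s, hu⟩) (hn x)
      have e2 : v = f x := Part.mem_unique (mem_phi.2 ⟨s, hv⟩) (hf x)
      rw [hu, hv, e1, e2] at h3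
      exact h3 rfl
  · intro hT
    unfold Tot at hT
    push Not at hT
    obtain ⟨w, hw⟩ := hT
    have hno : ∀ x s, ¬ chk e w x s (t x) := fun x s h => hw ((hdom' w).2 ⟨x, s, h⟩)
    refine ⟨w.unpair.1, ?_, w.unpair.2.unpair.1, ?_⟩
    · intro x
      have hle : ∃ y, le w.unpair.1 x y := by
        rcases Nat.lt_or_ge x w.unpair.2.unpair.1 with h | h
        · refine ⟨w.unpair.2.unpair.2, ?_⟩
          by_contra hcon
          exact hno x 0 (Or.inr (Or.inl ⟨h, hcon⟩))
        · refine ⟨t x, ?_⟩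
          by_contra hcon
          exact hno x 0 (Or.inl ⟨h, hcon⟩)
      obtain ⟨y, hy⟩ := hle
      obtain ⟨v, hv⟩ := phis_of_le hy
      obtain ⟨s, hs⟩ := mem_phi.1 (hf x)
      have h1 := phis_mono (le_max_left y s) hv
      have h2 := phis_mono (le_max_right y s) hs
      have h3 : v = f x := by
        by_contra hne
        apply hno x (max y s)
        refine Or.inr (Or.inr ⟨by rw [h1]; rfl, by rw [h2]; rfl, ?_⟩)
        rw [h1, h2]
        simpa using hne
      rw [← h3]
      exact mem_phi.2 ⟨_, hv⟩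
    · intro x hx
      by_contra hcon
      exact hno x 0 (Or.inl ⟨hx, hcon⟩)

/-! ### Hardness -/

theorem hardA {t : ℕ → ℕ} (ht : Computable t) (hZ : ∀ b, ∃ x, b ≤ x ∧ t x = 0)
    {a : ℕ → ℕ} (ha : Computable a) :
    ∃ b : ℕ → ℕ, Computable b ∧ Function.Injective b ∧
      (∀ e, b e ∈ Idx phi Phi t ↔ ∃ f, Computes phi e f ∧ ¬ Tot (a e)) := by
  obtain ⟨i, hi⟩ := exists_decides ht
  let ψ : ℕ → ℕ →. ℕ := fun e x => (phi e x).map fun _ => Nat.pair i (a e)
  have hψ : Partrec₂ ψ := by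
    refine Partrec.map (f := fun p : ℕ × ℕ => phi p.1 p.2) phi_partrec ?_
    exact Primrec₂.natPair.to_comp.comp (Computable.const i)
      (ha.comp (Computable.fst.comp Computable.fst))
  obtain ⟨b, hb1, hb2, hb3⟩ := smnPhi ψ hψ
  refine ⟨b, hb1, hb2, fun e => ?_⟩
  constructor
  · rintro ⟨g, hg1, hg2⟩
    have h1 : ∀ x, ∃ v, v ∈ phi e x ∧ Nat.pair i (a e) = g x := by
      intro x
      have := hg2 x
      rw [hb3] at this
      exact (Part.mem_map_iff _).1 this
    choose f hf1 hf2 using h1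
    refine ⟨f, hf1, ?_⟩
    have : g = fun _ => Nat.pair i (a e) := funext fun x => (hf2 x).symm
    rw [this] at hg1
    exact (const_mem_iff hZ hi _).1 hg1
  · rintro ⟨f, hf, hT⟩
    refine ⟨fun _ => Nat.pair i (a e), (const_mem_iff hZ hi _).2 hT, fun x => ?_⟩
    rw [hb3]
    exact (Part.mem_map_iff _).2 ⟨f x, hf x, rfl⟩

/-- sum of the values computed within `T` steps at `x` by the first indices -/
def dg (T x : ℕ) (j : ℕ) : ℕ :=
  Nat.rec 0 (fun n v => v + (phis T n x).getD 0) j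

theorem dg_le {T x n j v : ℕ} (h : n < j) (hv : phis T n x = some v) : v ≤ dg T x j := by
  induction j with
  | zero => omega
  | succ j ih =>
    have h1 : dg T x (j + 1) = dg T x j + (phis T j x).getD 0 := rfl
    rw [h1]
    rcases Nat.lt_or_ge n j with h2 | h2
    · exact (ih h2).trans (Nat.le_add_right _ _)
    · obtain rfl : n = j := by omega
      rw [hv]
      exact Nat.le_add_left _ _

theorem dg_prim {α : Type*} [Primcodable α] {T x j : α → ℕ} (hT : Primrec T) (hx : Primrec x)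
    (hj : Primrec j) : Primrec fun a => dg (T a) (x a) (j a) := by
  refine (Primrec.nat_rec' (f := j) (g := fun _ => 0)
    (h := fun a (q : ℕ × ℕ) => q.2 + (phis (T a) q.1 (x a)).getD 0) hj (Primrec.const 0) ?_).of_eq
    fun a => rfl
  refine Primrec.nat_add.comp (Primrec.snd.comp Primrec.snd) ?_
  refine Primrec.option_getD.comp ?_ (Primrec.const 0)
  exact phis_prim (hT.comp Primrec.fst) (Primrec.fst.comp Primrec.snd) (hx.comp Primrec.fst)

theorem fin_mem {t : ℕ → ℕ} {b0 : ℕ} (hZ : ∀ x, b0 ≤ x → t x ≠ 0) {f : ℕ → ℕ} {b : ℕ}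
    (hf : ∀ x, b ≤ x → f x = 0) : f ∈ Cls phi Phi t := by
  rw [mem_Cls]
  refine ⟨Nat.pair 1 (encode ((List.range b).map f)), fun x => ?_, b0, fun x hx => ?_⟩
  · unfold phi fsv
    simp only [Nat.unpair_pair, Denumerable.ofNat_encode, one_ne_zero, if_false, if_true,
      Part.mem_some_iff]
    rcases Nat.lt_or_ge x b with h | h
    · simp [List.getD, h]
    · rw [hf x h]
      simp [List.getD, h]
  · have := hZ x hx
    exact le_iff.2 (Or.inr (Or.inl ⟨by simp, by omega⟩))

theorem hardB {t : ℕ → ℕ} (ht : Computable t) {b0 : ℕ} (hZ : ∀ x, b0 ≤ x → t x ≠ 0)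
    {a : ℕ → ℕ} (ha : Computable a) :
    ∃ b : ℕ → ℕ, Computable b ∧ Function.Injective b ∧
      (∀ e, b e ∈ Idx phi Phi t ↔ ∃ f, Computes phi e f ∧ ¬ Tot (a e)) := by
  classical
  let G : ℕ → ℕ → ℕ := fun m x => if event m x then 1 + dg (t x) x (x + 1) else 0
  have hG : Computable₂ G := by
    have h1 : Primrec fun p : (ℕ × ℕ) × ℕ =>
        if event p.1.1 p.1.2 then 1 + dg p.2 p.1.2 (p.1.2 + 1) else 0 := by
      refine Primrec.ite (event_prim (Primrec.fst.comp Primrec.fst) (Primrec.snd.comp Primrec.fst))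
        ?_ (Primrec.const 0)
      refine Primrec.nat_add.comp (Primrec.const 1) ?_
      exact dg_prim Primrec.snd (Primrec.snd.comp Primrec.fst)
        (Primrec.succ.comp (Primrec.snd.comp Primrec.fst))
    exact h1.to_comp.comp (Computable.pair Computable.id (ht.comp Computable.snd))
  let ψ : ℕ → ℕ →. ℕ := fun e x => (phi e x).map fun _ => G (a e) x
  have hψ : Partrec₂ ψ := by
    refine Partrec.map (f := fun p : ℕ × ℕ => phi p.1 p.2) phi_partrec ?_
    exact hG.comp (ha.comp (Computable.fst.comp Computable.fst))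
      (Computable.snd.comp Computable.fst)
  obtain ⟨b, hb1, hb2, hb3⟩ := smnPhi ψ hψ
  refine ⟨b, hb1, hb2, fun e => ?_⟩
  constructor
  · rintro ⟨g, hg1, hg2⟩
    have h1 : ∀ x, ∃ v, v ∈ phi e x ∧ G (a e) x = g x := by
      intro x
      have := hg2 x
      rw [hb3] at this
      exact (Part.mem_map_iff _).1 this
    choose f hf1 hf2 using h1
    refine ⟨f, hf1, fun hT => ?_⟩
    obtain ⟨n, hn, c, hc⟩ := mem_Cls.1 hg1
    obtain ⟨s, hs1, hs2⟩ := event_of_tot hT (max n c)
    have hl := hc s (le_trans (le_max_right _ _) hs1)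
    obtain ⟨v, hv⟩ := phis_of_le hl
    have hvg : v = g s := Part.mem_unique (mem_phi.2 ⟨_, hv⟩) (hn s)
    have h2 : v ≤ dg (t s) s (s + 1) :=
      dg_le (lt_of_le_of_lt (le_trans (le_max_left _ _) hs1) (Nat.lt_succ_self s)) hv
    have h3 : g s = 1 + dg (t s) s (s + 1) := by
      rw [← hf2 s]
      simp only [G]
      rw [if_pos hs2]
    omega
  · rintro ⟨f, hf, hT⟩
    obtain ⟨c, hc⟩ := event_of_not_tot hT
    refine ⟨fun x => G (a e) x, fin_mem hZ (b := c) fun x hx => ?_, fun x => ?_⟩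
    · simp only [G]
      rw [if_neg]
      intro hcon
      have := hc x hcon
      omega
    · rw [hb3]
      exact (Part.mem_map_iff _).2 ⟨f x, hf x, rfl⟩

theorem hard {t : ℕ → ℕ} (ht : Computable t) {a : ℕ → ℕ} (ha : Computable a) :
    ∃ b : ℕ → ℕ, Computable b ∧ Function.Injective b ∧
      (∀ e, b e ∈ Idx phi Phi t ↔ ∃ f, Computes phi e f ∧ ¬ Tot (a e)) := by
  by_cases hZ : ∀ b, ∃ x, b ≤ x ∧ t x = 0
  · exact hardA ht hZ ha
  · push Not at hZ
    obtain ⟨b0, hb0⟩ := hZ
    exact hardB ht hb0 ha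

theorem conform_aux {t₁ t₂ : ℕ → ℕ} (h₁ : Computable t₁) (h₂ : Computable t₂) :
    OneOneReducible (fun i => i ∈ Idx phi Phi t₁) (fun i => i ∈ Idx phi Phi t₂) := by
  obtain ⟨a, ha1, ha2⟩ := upper h₁
  obtain ⟨b, hb1, hb2, hb3⟩ := hard h₂ ha1
  refine ⟨b, hb1, hb2, fun e => Iff.trans ?_ (hb3 e).symm⟩
  constructor
  · rintro ⟨f, hf1, hf2⟩
    exact ⟨f, hf2, (ha2 e f hf2).1 hf1⟩
  · rintro ⟨f, hf1, hf2⟩
    exact ⟨f, (ha2 e f hf1).2 hf2, hf1⟩

theorem conform : Conform phi Phi := fun _ _ h₁ h₂ _ _ =>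
  ⟨conform_aux h₁ h₂, conform_aux h₂ h₁⟩

/-! ### The class of the zero bound is not r.e. -/

theorem not_re : ¬ IsRE phi (Cls phi Phi fun _ => 0) := by
  classical
  have hZ : ∀ b, ∃ x, b ≤ x ∧ (fun _ : ℕ => 0) x = 0 := fun b => ⟨b, le_rfl, rfl⟩
  obtain ⟨i, hi⟩ := exists_decides (t := fun _ => 0) (Computable.const 0)
  -- a computable map from codes `c` to numbers `m c` such that `m c` is total iff `c` halts at `0`
  let m : Code → ℕ := fun c => encode (Code.comp c (Code.const 0))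
  have hm : Computable m :=
    (Primrec.encode.comp (Code.primrec₂_comp.comp Primrec.id (Primrec.const _))).to_comp
  have hTot : ∀ c, Tot (m c) ↔ (c.eval 0).Dom := by
    intro c
    have h1 : ∀ w, (cd (m c)).eval w = c.eval 0 := by
      intro w
      simp only [cd, m, ofNat_encode, Code.eval, Code.eval_const]
      exact Part.bind_some 0 c.eval
    unfold Tot
    simp only [h1]
    exact ⟨fun h => h 0, fun h _ => h⟩
  have hmem : ∀ c, (fun _ => Nat.pair i (m c)) ∈ Cls phi Phi (fun _ => 0) ↔ ¬ (c.eval 0).Dom := by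
    intro c
    rw [const_mem_iff hZ hi, hTot]
  rintro (h | ⟨g, hg1, hg2, hg3⟩)
  · -- nonempty
    obtain ⟨c, hc⟩ := Code.exists_code.1 Nat.Partrec.none
    have := (hmem c).2 (by rw [hc]; simp)
    rw [h] at this
    exact this
  · -- all members are constant
    have hconst : ∀ f ∈ Cls phi Phi (fun _ => 0), ∀ x, f x = f 0 := by
      intro f hf x
      obtain ⟨n, hn, b, hb⟩ := mem_Cls.1 hf
      have h0 : n.unpair.1 = 0 := by
        have := hb b le_rfl
        rw [le_iff] at this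
        omega
      have h1 : ∀ x, f x = n.unpair.2 := fun x => by
        have := hn x
        unfold phi at this
        rw [if_pos h0] at this
        exact Part.mem_some_iff.1 this
      rw [h1 x, h1 0]
    apply ComputablePred.halting_problem_not_re 0
    -- the search
    have hP : Partrec fun q : Code × ℕ => (phi (g q.2) 0).map fun v => decide (v = Nat.pair i (m q.1)) := by
      refine Partrec.map (f := fun q : Code × ℕ => phi (g q.2) 0) ?_ ?_
      · exact phi_partrec.comp (hg1.comp Computable.snd) (Computable.const 0)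
      · have h1 : Primrec₂ fun u v : ℕ => decide (u = v) := Primrec.eq.decide
        exact h1.to_comp.comp Computable.snd
          (Primrec₂.natPair.to_comp.comp (Computable.const i)
            (hm.comp (Computable.fst.comp Computable.fst)))
    let P : Code → ℕ →. Bool := fun c n =>
      (phi (g n) 0).map fun v => decide (v = Nat.pair i (m c))
    have hP2 : Partrec₂ P := hP
    have hS : Partrec fun c : Code => Nat.rfind (P c) := Partrec.rfind hP2
    refine (Partrec.dom_re hS).of_eq fun c => ?_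
    rw [← hmem]
    constructor
    · intro hd
      obtain ⟨n, hn⟩ := Part.dom_iff_mem.1 hd
      have h1 := (Nat.mem_rfind.1 hn).1
      obtain ⟨v, hv1, hv2⟩ := (Part.mem_map_iff _).1 h1
      have hv3 : v = Nat.pair i (m c) := by simpa using hv2
      obtain ⟨f, hf⟩ := hg3 n
      have hfC : f ∈ Cls phi Phi (fun _ => 0) := by
        rw [hg2]; exact ⟨n, hf⟩
      have hf0 : f 0 = v := Part.mem_unique (hf 0) hv1
      have : f = fun _ => Nat.pair i (m c) := funext fun x => by
        rw [hconst f hfC x, hf0, hv3]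
      rw [← this]
      exact hfC
    · intro hC
      rw [hg2] at hC
      obtain ⟨n, hn⟩ := hC
      refine Nat.rfind_dom.2 ⟨n, ?_, fun {k} _ => ?_⟩
      · exact (Part.mem_map_iff _).2 ⟨_, hn 0, by simp⟩
      · obtain ⟨f, hf⟩ := hg3 k
        exact Part.dom_iff_mem.2 ⟨_, (Part.mem_map_iff _).2 ⟨_, hf 0, rfl⟩⟩

/-- There are a conform Blum measure `(φ, Φ)` and a recursive bound `t` such that the complexity
class of `t` is not recursively enumerable. -/
theorem result :
    ∃ φ Φ : ℕ → ℕ →. ℕ, IsBlum φ Φ ∧ Conform φ Φ ∧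
      ∃ t : ℕ → ℕ, Computable t ∧ ¬ IsRE φ (Cls φ Φ t) :=
  ⟨phi, Phi, isBlum, conform, fun _ => 0, Computable.const 0, not_re⟩

end Pool.Agent.Results.MP_9ab454_lc.ConformNotRE
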